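import Mathlib
import Pool.Agent.W811.LW.Stm

set_option autoImplicit false

open Finset Filter Topology
open scoped ENNReal

namespace Pool.Agent.W255.LW

open Pool.Agent.W811.LW

theorem famV_ne (D α : ℝ) (m : ℕ) : ∀ v ∈ famV D α m, v ≠ (0, 0, 0) := by
  intro v hv h
  rw [h] at hv
  exact hv.1 rfl

theorem famW_ne (D : ℝ) (m : ℕ) : ∀ v ∈ famW D m, v ≠ (0, 0, 0) := by
  intro v hv h
  rw [h] at hv
  exact hv.1 rfl

theorem one_le_abs {k : ℤ} (hk : k ≠ 0) : (1 : ℝ) ≤ |(k : ℝ)| := by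
  have : (1 : ℤ) ≤ |k| := Int.one_le_abs hk
  exact_mod_cast this

theorem famV_div (D α : ℝ) (m : ℕ) (hD : 0 ≤ D) :
    ∀ (k : ℤ) (u : V3), smul3 k u ∈ famV D α m → u ∈ famV D α m := by
  intro k u hu
  obtain ⟨h1, h2⟩ := hu
  have hk : k ≠ 0 := by
    intro h
    apply h1
    simp [smul3, h]
  have hu1 : u.1 ≠ 0 := by
    intro h
    apply h1
    simp [smul3, h]
  refine ⟨hu1, ?_⟩
  have e : (((smul3 k u).1 : ℤ) : ℝ) * α - (((smul3 k u).2.1 : ℤ) : ℝ)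
      = (k : ℝ) * ((u.1 : ℝ) * α - (u.2.1 : ℝ)) := by
    simp only [smul3]
    push_cast
    ring
  rw [e, abs_mul] at h2
  have hk1 := one_le_abs hk
  have hn : 0 ≤ |(u.1 : ℝ) * α - (u.2.1 : ℝ)| * D ^ (2 * m) :=
    mul_nonneg (abs_nonneg _) (pow_nonneg hD _)
  calc |(u.1 : ℝ) * α - (u.2.1 : ℝ)| * D ^ (2 * m)
      ≤ |(k : ℝ)| * (|(u.1 : ℝ) * α - (u.2.1 : ℝ)| * D ^ (2 * m)) := by
        nlinarith
    _ = |(k : ℝ)| * |(u.1 : ℝ) * α - (u.2.1 : ℝ)| * D ^ (2 * m) := by ring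
    _ ≤ 1 := h2

theorem famW_div (D : ℝ) (m : ℕ) :
    ∀ (k : ℤ) (u : V3), smul3 k u ∈ famW D m → u ∈ famW D m := by
  intro k u hu
  obtain ⟨h1, h2, h3⟩ := hu
  have hk : k ≠ 0 := by
    intro h
    apply h1
    simp [smul3, h]
  have hu1 : u.2.1 ≠ 0 := by
    intro h
    apply h1
    simp [smul3, h]
  have hu2 : u.2.2 ≠ 0 := by
    intro h
    apply h2
    simp [smul3, h]
  refine ⟨hu1, hu2, ?_⟩
  have e : (((smul3 k u).2.1 : ℤ) : ℝ) = (k : ℝ) * (u.2.1 : ℝ) := by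
    simp only [smul3]
    push_cast
    ring
  rw [e, abs_mul] at h3
  have hk1 := one_le_abs hk
  have hn : 0 ≤ |(u.2.1 : ℝ)| := abs_nonneg _
  calc |(u.2.1 : ℝ)| ≤ |(k : ℝ)| * |(u.2.1 : ℝ)| := by nlinarith
    _ ≤ D ^ (2 * m) := h3

theorem aV_h (D : ℝ) (t : ℕ) (β : ℝ) (k : ℤ) (u : V3) :
    aV D t β (smul3 k u) = k * aV D t β u := by
  simp only [aV, smul3]
  push_cast
  ring

theorem bV_h (D : ℝ) (j t : ℕ) (k : ℤ) (u : V3) :
    bV D j t (smul3 k u) = k * bV D j t u := by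
  simp only [bV, smul3]
  push_cast
  ring

theorem aW_h (D : ℝ) (j t : ℕ) (α β : ℝ) (k : ℤ) (u : V3) :
    aW D j t α β (smul3 k u) = k * aW D j t α β u := by
  simp only [aW, smul3]
  push_cast
  ring

theorem bW_h (D : ℝ) (t : ℕ) (k : ℤ) (u : V3) :
    bW D t (smul3 k u) = k * bW D t u := by
  simp only [bW, smul3]
  push_cast
  ring

theorem clv1 (h : ABS) (hp : POS) : CLV1 := by
  intro D c0 α β j t m hD hc hα
  have hD1 : (1 : ℝ) ≤ D := by exact_mod_cast (by omega : 1 ≤ D)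
  have hD0 : (D : ℝ) ≠ 0 := by linarith
  obtain ⟨p1, -, p3, -⟩ := hp D α c0 β j t m hD hc hα
  have hy : ∀ d : ℕ, inN (famV (D : ℝ) α m)
      (fun v => (D : ℝ) * (aV D t β v + (d : ℝ) / (D : ℝ) ^ 2 * bV D j t v))
      (fun v => bV D j t v / (D : ℝ)) =
      yV D α j (t + 1) (β + (d : ℝ) / (D : ℝ) ^ (2 * (j + t) + 2)) m := by
    intro d
    unfold yV
    congr 1
    · funext v
      simp only [aV, bV]
      field_simp
      ring
    · funext v
      simp only [bV]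
      rw [div_div, ← pow_succ]
      rfl
  have H := h D D D (famV (D : ℝ) α m) (aV D t β) (bV D j t) hD hD1 hD1 (by ring)
    (aV_h _ _ _) (bV_h _ _ _) p1 (famV_ne _ _ _) (famV_div _ _ _ (by linarith)) p3
  simp only [hy] at H
  exact H

theorem clv0 (h : ABS) (hp : POS) : CLV0 := by
  intro D c0 α β j m hD hc hα
  have hD1 : (1 : ℝ) ≤ D := by exact_mod_cast (by omega : 1 ≤ D)
  have hD0 : (D : ℝ) ≠ 0 := by linarith
  obtain ⟨p1, -, p3, -⟩ := hp D α c0 β j 0 m hD hc hα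
  have hy : ∀ d : ℕ, inN (famV (D : ℝ) α m)
      (fun v => (1 : ℝ) * (aV D 0 β v + (d : ℝ) / (D : ℝ) ^ 2 * bV D j 0 v))
      (fun v => bV D j 0 v / (D : ℝ) ^ 2) =
      yV D α (j + 1) 0 (β + (d : ℝ) / (D : ℝ) ^ (2 * j + 2)) m := by
    intro d
    unfold yV
    congr 1
    · funext v
      simp only [aV, bV]
      field_simp
      ring
    · funext v
      simp only [bV]
      rw [div_div, ← pow_add]
      congr 2
  have H := h D 1 ((D : ℝ) ^ 2) (famV (D : ℝ) α m) (aV D 0 β) (bV D j 0) hD le_rfl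
    (one_le_pow₀ hD1) (by ring)
    (aV_h _ _ _) (bV_h _ _ _) p1 (famV_ne _ _ _) (famV_div _ _ _ (by linarith)) p3
  simp only [hy] at H
  have hr : rs 1 = 1 := by simp [rs]
  rw [hr, mul_one] at H
  exact H

theorem clw1 (h : ABS) (hp : POS) : CLW1 := by
  intro D c0 α β j t m hD hc hα
  have hD1 : (1 : ℝ) ≤ D := by exact_mod_cast (by omega : 1 ≤ D)
  have hD0 : (D : ℝ) ≠ 0 := by linarith
  obtain ⟨-, p2, -, p4⟩ := hp D α c0 β j t m hD hc hα
  have hy : ∀ d : ℕ, inN (famW (D : ℝ) m)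
      (fun v => (D : ℝ) * (aW D j t α β v + (d : ℝ) / (D : ℝ) ^ 2 * bW D t v))
      (fun v => bW D t v / (D : ℝ)) =
      yW D α j (t + 1) (β + (d : ℝ) / (D : ℝ) ^ (2 * (j + t) + 2)) m := by
    intro d
    unfold yW
    congr 1
    · funext v
      simp only [aW, bW]
      field_simp
      ring
    · funext v
      simp only [bW]
      rw [div_div, ← pow_succ]
  have H := h D D D (famW (D : ℝ) m) (aW D j t α β) (bW D t) hD hD1 hD1 (by ring)
    (aW_h _ _ _ _ _) (bW_h _ _) p2 (famW_ne _ _) (famW_div _ _) p4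
  simp only [hy] at H
  exact H

theorem clw0 (h : ABS) (hp : POS) : CLW0 := by
  intro D c0 α β j m hD hc hα
  have hD1 : (1 : ℝ) ≤ D := by exact_mod_cast (by omega : 1 ≤ D)
  have hD0 : (D : ℝ) ≠ 0 := by linarith
  obtain ⟨-, p2, -, p4⟩ := hp D α c0 β j 0 m hD hc hα
  have hy : ∀ d : ℕ, inN (famW (D : ℝ) m)
      (fun v => (D : ℝ) ^ 2 * (aW D j 0 α β v + (d : ℝ) / (D : ℝ) ^ 2 * bW D 0 v))
      (fun v => bW D 0 v / (1 : ℝ)) =
      yW D α (j + 1) 0 (β + (d : ℝ) / (D : ℝ) ^ (2 * j + 2)) m := by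
    intro d
    unfold yW
    congr 1
    · funext v
      simp only [aW, bW]
      field_simp
      ring
    · funext v
      simp only [bW, div_one]
  have H := h D ((D : ℝ) ^ 2) 1 (famW (D : ℝ) m) (aW D j 0 α β) (bW D 0) hD
    (one_le_pow₀ hD1) le_rfl (by ring)
    (aW_h _ _ _ _ _) (bW_h _ _) p2 (famW_ne _ _) (famW_div _ _) p4
  simp only [hy] at H
  exact H

end Pool.Agent.W255.LW
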